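import Pool.Agent.helper32.TRG.Spec

/-!
# TRG, row T4P: torus elements for a pair of roots
-/

set_option autoImplicit false

open Finset

namespace Pool.Agent.TRI

open Pool.Agent.EXC

set_option maxRecDepth 100000 in
theorem T4P_a : ∀ i j : Fin 24, ip C4 (lt4 i) (lt4 j) = 0 → ∃ k : Fin 24, ip C4 (lt4 i) (lt4 k) = 1 ∧ ip C4 (lt4 j) (lt4 k) = 1 := by
  decide +kernel

set_option maxRecDepth 100000 in
theorem T4P_b : ∀ i j : Fin 24, ip C4 (lt4 i) (lt4 j) = 0 → ∃ k : Fin 24, ip C4 (lt4 i) (lt4 k) = 1 ∧ ip C4 (lt4 j) (lt4 k) = -1 := by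
  decide +kernel

set_option maxRecDepth 100000 in
theorem T4P_c : ∀ i j : Fin 24, ip C4 (lt4 i) (lt4 j) = -1 → ∃ k : Fin 24, ip C4 (lt4 i) (lt4 k) = 1 ∧ ip C4 (lt4 j) (lt4 k) = 0 := by
  decide +kernel

set_option maxRecDepth 100000 in
theorem T4P_d : ∀ i j : Fin 24, ip C4 (lt4 i) (lt4 j) = -1 → ∃ k : Fin 24, ip C4 (lt4 i) (lt4 k) = 0 ∧ ip C4 (lt4 j) (lt4 k) = 1 := by
  decide +kernel

set_option maxRecDepth 100000 in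
theorem T4P_r : ∀ i : Fin 24, ip C4 (lt4 i) (lt4 i) = 2 := by
  decide +kernel

theorem T4P_mul {K : Type} [Field K] (hTO4 : TO4_stmt) (u v β₁ β₂ : Fin 4 → ℤ) (hu : ip C4 u u = 2) (hv : ip C4 v v = 2)
    (h1 : ip C4 β₁ β₁ = 2) (h2 : ip C4 β₂ β₂ = 2) (s t : K) (hs : s ≠ 0) (ht : t ≠ 0) :
    ∃ h ∈ GE C4 K, h (E C4 u) = (s ^ ip C4 u β₁ * t ^ ip C4 u β₂) • (E C4 u : Lm C4 K) ∧
      h (E C4 v) = (s ^ ip C4 v β₁ * t ^ ip C4 v β₂) • (E C4 v : Lm C4 K) := by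
  obtain ⟨g₁, hg₁, hh₁⟩ := hTO4 4 C4 K hb4 β₁ h1 s hs
  obtain ⟨g₂, hg₂, hh₂⟩ := hTO4 4 C4 K hb4 β₂ h2 t ht
  refine ⟨g₁ * g₂, mul_mem hg₁ hg₂, ?_, ?_⟩
  · rw [LinearEquiv.mul_apply, hh₂ u hu, map_smul, hh₁ u hu, smul_smul, mul_comm]
  · rw [LinearEquiv.mul_apply, hh₂ v hv, map_smul, hh₁ v hv, smul_smul, mul_comm]

theorem T4P (hRL4 : RL4_stmt) (hTO4 : TO4_stmt) : T4P_stmt := by
  intro K _ u v hu hv s t hs ht
  obtain ⟨i, rfl⟩ := hRL4 u hu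
  obtain ⟨j, rfl⟩ := hRL4 v hv
  constructor
  · intro h0
    obtain ⟨k, k1, k2⟩ := T4P_a i j h0
    obtain ⟨l, l1, l2⟩ := T4P_b i j h0
    obtain ⟨h, hh, e1, e2⟩ := T4P_mul hTO4 _ _ _ _ hu hv (T4P_r k) (T4P_r l) s t hs ht
    rw [k1, l1, zpow_one, zpow_one] at e1
    rw [k2, l2, zpow_one, zpow_neg_one] at e2
    exact ⟨h, hh, e1, e2⟩
  · intro h0
    obtain ⟨k, k1, k2⟩ := T4P_c i j h0
    obtain ⟨l, l1, l2⟩ := T4P_d i j h0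
    obtain ⟨h, hh, e1, e2⟩ := T4P_mul hTO4 _ _ _ _ hu hv (T4P_r k) (T4P_r l) s t hs ht
    rw [k1, l1, zpow_one, zpow_zero, mul_one] at e1
    rw [k2, l2, zpow_one, zpow_zero, one_mul] at e2
    exact ⟨h, hh, e1, e2⟩

end Pool.Agent.TRI
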